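import Pool.Agent.Results.MP_e0da8e_an.CountableExceptions
import Pool.Agent.Lib.MP_e0da8e_an.Quad

/-! The whole statement of the earlier hand-in `Quadratic`, from the statement of
`CountableExceptions` and arithmetic of the quadratic number only. -/

namespace Pool.Agent.Lib.MP_e0da8e_an.RQ

open Finset Polynomial Filter Pool.Agent.Results.MP_e0da8e_an

lemma hyp {N c : ℤ} (hc : 3 ≤ |c|) {ρ : ℝ} (h0 : 0 < ρ) (h1 : |c * ρ| ≤ 1 / 2)
    (h2 : c * ρ ^ 2 - N * ρ + 1 = 0) (P : ℤ[X]) (j : ℕ) (hP : P.Monic)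
    (a1 : ∀ i, j < i → |P.coeff i| ≤ 1) (a2 : ∀ i, i < j → |P.coeff i| ≤ 2) :
    aeval ρ⁻¹ P ≠ 0 := by
  intro e
  set n := max P.natDegree j with hn
  obtain ⟨m, hm, hm'⟩ := ((lowSep_quad hc h0 h1 h2 (n - j) (P.coeff j).natAbs).and
    (eventually_ge_atTop j)).exists
  let q : ℕ → ℤ := fun l => if l ≤ n then P.coeff (n - l) else 0
  have hs : ∑ l ∈ range (n - j + 1 + m), (q l : ℝ) * ρ ^ (l + 1) = 0 := by
    rw [← sum_subset (range_subset_range.2 (show n + 1 ≤ n - j + 1 + m by omega)) fun l _ hl => by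
      simp only [q, if_neg (show ¬ l ≤ n by simpa using hl)]; simp]
    rw [aeval_eq_sum_range' (show P.natDegree < n + 1 by omega), ← sum_range_reflect] at e
    have e2 := congrArg (ρ ^ (n + 1) * ·) e
    simp only [mul_sum, mul_zero] at e2
    refine Eq.trans (sum_congr rfl fun l hl => ?_) e2
    have hl' := mem_range.1 hl
    obtain ⟨k, hk⟩ : ∃ k, n = k + l := ⟨n - l, by omega⟩
    simp only [q, if_pos (show l ≤ n by omega), show n + 1 - 1 - l = k by omega,
      show n - l = k by omega, zsmul_eq_mul]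
    rw [hk, inv_pow]
    field_simp
    ring
  have := hm q (fun l _ => ?_) ⟨n - P.natDegree, by omega, ?_⟩
  · rw [hs, abs_zero] at this
    linarith [pow_pos h0 (n - j + 1 + m + 1)]
  · simp only [q, dg]
    split_ifs with b1 b2 b3
    · simpa using a1 (n - l) (by omega)
    · rw [show n - l = j by omega]; push_cast; omega
    · simpa using a2 (n - l) (by omega)
    all_goals positivity
  · simp only [q, if_pos (Nat.sub_le _ _), show n - (n - P.natDegree) = P.natDegree by omega,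
      hP.coeff_natDegree]
    exact one_ne_zero

theorem quadratic (N c : ℤ) (hc : 3 ≤ |c|) (hN : 2 * |c| < N) (ρ : ℝ)
    (hρ : ρ = 2 / (N + √(N ^ 2 - 4 * c))) :
    0 < ρ ∧ ρ < 1 / 2 ∧ (∀ k : ℕ, ρ ≠ 1 / (2 * k)) ∧
      ∀ d : ℝ, 0 < d → HasFourierFrame (bernoulliConv ρ d) := by
  obtain ⟨h0, h1, h2⟩ := quad_root hc hN hρ
  have hc' : (3 : ℝ) ≤ |(c : ℝ)| := by exact_mod_cast hc
  have r6 : ρ < 1 / 2 := by
    rw [abs_mul, abs_of_pos h0] at h1
    nlinarith
  refine ⟨h0, r6, fun k hk => ?_, CountableExceptions.result ρ h0 r6 (hyp hc h0 h1 h2)⟩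
  refine hyp hc h0 h1 h2 (X - C (2 * k : ℤ)) 0 (monic_X_sub_C _) (fun i hi => ?_) (by omega) ?_
  · rw [coeff_sub, coeff_X, coeff_C, if_neg (by omega : i ≠ 0)]
    split_ifs <;> simp
  · rw [hk, one_div, inv_inv, map_sub, aeval_X, aeval_C]
    simp

end Pool.Agent.Lib.MP_e0da8e_an.RQ
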